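import Mathlib

open Finset

namespace Pool.Agent.Lib.MP_fcaed2_pr

/-- colour of the position `x` for the cut set `C` -/
def col (C : Finset ℕ) (x : ℕ) : Bool := decide (Odd (C.filter (· < x)).card)

/-- number of cuts plus twice the number of unfairly coloured pairs -/
def energy (m : Multiset (ℕ × ℕ)) (C : Finset ℕ) : ℕ :=
  C.card + 2 * m.countP (fun u => col C u.1 = col C u.2)

noncomputable def H (m : Multiset (ℕ × ℕ)) : ℕ := sInf (Set.range (energy m))

lemma H_le (m : Multiset (ℕ × ℕ)) (C : Finset ℕ) : H m ≤ energy m C :=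
  Nat.sInf_le ⟨C, rfl⟩

lemma exists_H (m : Multiset (ℕ × ℕ)) : ∃ C, energy m C = H m :=
  Nat.sInf_mem (Set.range_nonempty (energy m))

lemma energy_cons (u : ℕ × ℕ) (m : Multiset (ℕ × ℕ)) (C : Finset ℕ) :
    energy (u ::ₘ m) C = energy m C + 2 * (if col C u.1 = col C u.2 then 1 else 0) := by
  unfold energy
  rw [Multiset.countP_cons]
  ring

lemma H_le_cons (u : ℕ × ℕ) (m : Multiset (ℕ × ℕ)) : H m ≤ H (u ::ₘ m) := by
  obtain ⟨C, hC⟩ := exists_H (u ::ₘ m)
  rw [← hC, energy_cons]
  exact (H_le m C).trans (Nat.le_add_right _ _)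

lemma H_cons_le (u : ℕ × ℕ) (m : Multiset (ℕ × ℕ)) : H (u ::ₘ m) ≤ H m + 2 := by
  obtain ⟨C, hC⟩ := exists_H m
  refine (H_le _ C).trans ?_
  rw [← hC, energy_cons]
  split_ifs <;> omega

lemma H_le_card (m : Multiset (ℕ × ℕ)) : H m ≤ 2 * Multiset.card m := by
  refine (H_le m ∅).trans ?_
  unfold energy
  have := Multiset.countP_le_card (fun u : ℕ × ℕ => col ∅ u.1 = col ∅ u.2) m
  simp only [card_empty, zero_add]
  omega

/-- the positions `u.1`, `u.2` have the same colour for all cut sets of energy at most `H m + j` -/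
def Rel (m : Multiset (ℕ × ℕ)) (j : ℕ) (u : ℕ × ℕ) : Prop :=
  ∀ C, energy m C ≤ H m + j → col C u.1 = col C u.2

open Classical in
lemma H_cons_eq (u : ℕ × ℕ) (m : Multiset (ℕ × ℕ)) :
    (H (u ::ₘ m) : ℝ) = H m + (if Rel m 0 u then 1 else 0) + (if Rel m 1 u then 1 else 0) := by
  have h01 : Rel m 1 u → Rel m 0 u := fun h C hC => h C (by omega)
  by_cases h1 : Rel m 1 u
  · rw [if_pos (h01 h1), if_pos h1]
    have : H (u ::ₘ m) = H m + 2 := by
      refine le_antisymm (H_cons_le u m) ?_
      obtain ⟨C, hC⟩ := exists_H (u ::ₘ m)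
      rw [← hC, energy_cons]
      by_cases hle : energy m C ≤ H m + 1
      · rw [if_pos (h1 C hle)]
        have := H_le m C
        omega
      · omega
    rw [this]; push_cast; ring
  · by_cases h0 : Rel m 0 u
    · rw [if_pos h0, if_neg h1]
      have : H (u ::ₘ m) = H m + 1 := by
        refine le_antisymm ?_ ?_
        · unfold Rel at h1
          push Not at h1
          obtain ⟨C, hC, hne⟩ := h1
          refine (H_le _ C).trans ?_
          rw [energy_cons, if_neg hne]
          omega
        · obtain ⟨C, hC⟩ := exists_H (u ::ₘ m)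
          rw [← hC, energy_cons]
          by_cases hle : energy m C ≤ H m + 0
          · rw [if_pos (h0 C hle)]
            have := H_le m C
            omega
          · omega
      rw [this]; push_cast; ring
    · rw [if_neg h0, if_neg h1]
      have : H (u ::ₘ m) = H m := by
        refine le_antisymm ?_ (H_le_cons u m)
        unfold Rel at h0
        push Not at h0
        obtain ⟨C, hC, hne⟩ := h0
        refine (H_le _ C).trans ?_
        rw [energy_cons, if_neg hne]
        omega
      rw [this]; ring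

/-- shift of a pair of positions -/
def shift (n : ℕ) (u : ℕ × ℕ) : ℕ × ℕ := (u.1 + n, u.2 + n)

lemma col_union_left {n : ℕ} (C D : Finset ℕ) {x : ℕ} (hx : x < n) :
    col (C.filter (· < n) ∪ D.map (addRightEmbedding n)) x = col C x := by
  unfold col
  congr 3
  ext c
  simp only [mem_filter, mem_union, mem_map, addRightEmbedding_apply]
  constructor
  · rintro ⟨h | ⟨d, _, rfl⟩, hc⟩
    · exact ⟨h.1, hc⟩
    · omega
  · rintro ⟨h, hc⟩
    exact ⟨Or.inl ⟨h, by omega⟩, hc⟩

lemma col_union_right {n : ℕ} (C D : Finset ℕ) (x y : ℕ) :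
    (col (C.filter (· < n) ∪ D.map (addRightEmbedding n)) (x + n) =
      col (C.filter (· < n) ∪ D.map (addRightEmbedding n)) (y + n)) ↔ col D x = col D y := by
  have key : ∀ z, ((C.filter (· < n) ∪ D.map (addRightEmbedding n)).filter (· < z + n)).card =
      (C.filter (· < n)).card + (D.filter (· < z)).card := by
    intro z
    have h1 : (C.filter (· < n) ∪ D.map (addRightEmbedding n)).filter (· < z + n) =
        C.filter (· < n) ∪ (D.filter (· < z)).map (addRightEmbedding n) := by
      ext c
      simp only [mem_filter, mem_union, mem_map, addRightEmbedding_apply]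
      constructor
      · rintro ⟨h | ⟨d, hd, rfl⟩, hc⟩
        · exact Or.inl h
        · exact Or.inr ⟨d, ⟨hd, by omega⟩, rfl⟩
      · rintro (h | ⟨d, ⟨hd, hdz⟩, rfl⟩)
        · exact ⟨Or.inl h, by omega⟩
        · exact ⟨Or.inr ⟨d, hd, rfl⟩, by omega⟩
    rw [h1, card_union_of_disjoint, card_map]
    rw [disjoint_left]
    intro c hc hc'
    simp only [mem_filter, mem_map, addRightEmbedding_apply] at hc hc'
    obtain ⟨d, _, rfl⟩ := hc'
    omega
  unfold col
  rw [decide_eq_decide, decide_eq_decide, key, key]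
  simp only [Nat.odd_add, ← Nat.not_odd_iff_even]
  tauto

lemma H_add_shift {n : ℕ} {m₁ : Multiset (ℕ × ℕ)} (h : ∀ u ∈ m₁, u.1 < n ∧ u.2 < n)
    (m₂ : Multiset (ℕ × ℕ)) : H (m₁ + m₂.map (shift n)) ≤ H m₁ + H m₂ := by
  obtain ⟨C, hC⟩ := exists_H m₁
  obtain ⟨D, hD⟩ := exists_H m₂
  refine (H_le _ (C.filter (· < n) ∪ D.map (addRightEmbedding n))).trans ?_
  rw [← hC, ← hD]
  unfold energy
  rw [Multiset.countP_add, Multiset.countP_map]
  have h1 : (C.filter (· < n) ∪ D.map (addRightEmbedding n)).card ≤ C.card + D.card := by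
    refine (card_union_le _ _).trans ?_
    rw [card_map]
    have := card_filter_le C (· < n)
    omega
  have h2 : m₁.countP (fun u => col (C.filter (· < n) ∪ D.map (addRightEmbedding n)) u.1 =
      col (C.filter (· < n) ∪ D.map (addRightEmbedding n)) u.2) =
      m₁.countP (fun u => col C u.1 = col C u.2) := by
    refine Multiset.countP_congr rfl fun u hu => ?_
    rw [col_union_left C D (h u hu).1, col_union_left C D (h u hu).2]
  have h3 : Multiset.card (m₂.filter (fun u => col (C.filter (· < n) ∪ D.map (addRightEmbedding n))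
      (shift n u).1 = col (C.filter (· < n) ∪ D.map (addRightEmbedding n)) (shift n u).2)) =
      m₂.countP (fun u => col D u.1 = col D u.2) := by
    rw [Multiset.countP_eq_card_filter]
    congr 1
    refine Multiset.filter_congr fun u _ => ?_
    exact col_union_right C D u.1 u.2
  rw [h2, h3]
  omega

end Pool.Agent.Lib.MP_fcaed2_pr
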