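import Mathlib
import Pool.Agent.Lib.MP_fcaed2_pr.Energy

open Finset

namespace Pool.Agent.Lib.MP_fcaed2_pr

/-- average over a new pair of positions in `S` -/
noncomputable def T (S : Finset ℕ) (φ : Multiset (ℕ × ℕ) → ℝ) (m : Multiset (ℕ × ℕ)) : ℝ :=
  ((S.card : ℝ) ^ 2)⁻¹ * ∑ u ∈ S ×ˢ S, φ (u ::ₘ m)

lemma T_mono_local {S : Finset ℕ} {φ ψ : Multiset (ℕ × ℕ) → ℝ} {m : Multiset (ℕ × ℕ)}
    (h : ∀ u ∈ S ×ˢ S, φ (u ::ₘ m) ≤ ψ (u ::ₘ m)) : T S φ m ≤ T S ψ m :=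
  mul_le_mul_of_nonneg_left (sum_le_sum h) (by positivity)

lemma T_mono {S : Finset ℕ} {φ ψ : Multiset (ℕ × ℕ) → ℝ} (h : ∀ m, φ m ≤ ψ m)
    (m : Multiset (ℕ × ℕ)) : T S φ m ≤ T S ψ m :=
  T_mono_local fun _ _ => h _

lemma T_iter_mono {S : Finset ℕ} {φ ψ : Multiset (ℕ × ℕ) → ℝ} (h : ∀ m, φ m ≤ ψ m) (k : ℕ)
    (m : Multiset (ℕ × ℕ)) : (T S)^[k] φ m ≤ (T S)^[k] ψ m := by
  induction k generalizing m with
  | zero => exact h m
  | succ k ih =>
    rw [Function.iterate_succ_apply', Function.iterate_succ_apply']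
    exact T_mono ih m

lemma T_lin {S : Finset ℕ} (a b : ℝ) (φ ψ : Multiset (ℕ × ℕ) → ℝ) :
    T S (fun m => a * φ m + b * ψ m) = fun m => a * T S φ m + b * T S ψ m := by
  ext m
  unfold T
  rw [sum_add_distrib, ← mul_sum, ← mul_sum]
  ring

lemma T_iter_lin {S : Finset ℕ} (a b : ℝ) (φ ψ : Multiset (ℕ × ℕ) → ℝ) (k : ℕ) :
    (T S)^[k] (fun m => a * φ m + b * ψ m) =
      fun m => a * (T S)^[k] φ m + b * (T S)^[k] ψ m := by
  induction k with
  | zero => rfl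
  | succ k ih =>
    rw [Function.iterate_succ_apply', Function.iterate_succ_apply',
      Function.iterate_succ_apply', ih, T_lin]

lemma T_eq_const {S : Finset ℕ} (hS : S.Nonempty) {φ : Multiset (ℕ × ℕ) → ℝ}
    {m : Multiset (ℕ × ℕ)} {c : ℝ} (h : ∀ u ∈ S ×ˢ S, φ (u ::ₘ m) = c) : T S φ m = c := by
  unfold T
  rw [sum_congr rfl h, sum_const, card_product, nsmul_eq_mul]
  have : (S.card : ℝ) ≠ 0 := by
    have := hS.card_pos
    positivity
  push_cast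
  field_simp

lemma T_comm (S S' : Finset ℕ) : Function.Commute (T S) (T S') := by
  intro φ
  ext m
  simp only [T, mul_sum]
  rw [sum_comm]
  refine sum_congr rfl fun u _ => sum_congr rfl fun v _ => ?_
  rw [Multiset.cons_swap]
  ring

lemma T_add_const {S : Finset ℕ} (hS : S.Nonempty) (φ : Multiset (ℕ × ℕ) → ℝ) (c : ℝ) :
    T S (fun m => φ m + c) = fun m => T S φ m + c := by
  ext m
  have h := congrFun (T_lin (S := S) 1 1 φ (fun _ => c)) m
  simp only [one_mul] at h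
  rw [h, T_eq_const hS (φ := fun _ => c) (c := c) (fun _ _ => rfl)]

lemma T_iter_add_const {S : Finset ℕ} (hS : S.Nonempty) (φ : Multiset (ℕ × ℕ) → ℝ) (c : ℝ)
    (k : ℕ) : (T S)^[k] (fun m => φ m + c) = fun m => (T S)^[k] φ m + c := by
  induction k with
  | zero => rfl
  | succ k ih =>
    rw [Function.iterate_succ_apply', Function.iterate_succ_apply', ih, T_add_const hS]

lemma count_rel {K : Type*} [DecidableEq K] (S : Finset ℕ) (κ : ℕ → K) (V : Finset K)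
    (hV : S.image κ ⊆ V) :
    ∑ u ∈ S ×ˢ S, (if κ u.1 = κ u.2 then (1 : ℝ) else 0) =
      ∑ v ∈ V, ((S.filter (fun p => κ p = v)).card : ℝ) ^ 2 := by
  rw [sum_product]
  have h1 : ∀ p ∈ S, ∑ q ∈ S, (if κ p = κ q then (1 : ℝ) else 0) =
      ((S.filter (fun q => κ q = κ p)).card : ℝ) := by
    intro p _
    rw [sum_boole]
    congr 2
    ext q
    simp only [mem_filter]
    constructor
    · rintro ⟨h1, h2⟩; exact ⟨h1, h2.symm⟩
    · rintro ⟨h1, h2⟩; exact ⟨h1, h2.symm⟩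
  rw [sum_congr rfl h1]
  rw [← sum_fiberwise_of_maps_to (s := S) (t := V) (g := κ)
    (fun p hp => hV (mem_image_of_mem κ hp))]
  refine sum_congr rfl fun v _ => ?_
  rw [sum_congr rfl (g := fun _ => ((S.filter (fun q => κ q = v)).card : ℝ))]
  · rw [sum_const, nsmul_eq_mul, sq]
  · intro p hp
    rw [(mem_filter.1 hp).2]

lemma titu {a b x y : ℝ} (ha : 0 < a) (hb : 0 < b) :
    (x + y) ^ 2 / (a + b) ≤ x ^ 2 / a + y ^ 2 / b := by
  rw [div_add_div _ _ ha.ne' hb.ne', div_le_div_iff₀ (by positivity) (by positivity)]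
  nlinarith [sq_nonneg (b * x - a * y), mul_pos ha hb]

lemma rel_convex {K : Type*} [DecidableEq K] {S₁ S₂ : Finset ℕ} (hd : Disjoint S₁ S₂)
    {a b k : ℕ} (ha : 0 < a) (hb : 0 < b) (hk : 0 < k) (h1 : S₁.card = a * k)
    (h2 : S₂.card = b * k) (κ : ℕ → K) :
    (((S₁ ∪ S₂).card : ℝ) ^ 2)⁻¹ * ∑ u ∈ (S₁ ∪ S₂) ×ˢ (S₁ ∪ S₂),
        (if κ u.1 = κ u.2 then (1 : ℝ) else 0) ≤
      ((a : ℝ) / (a + b)) * (((S₁.card : ℝ) ^ 2)⁻¹ * ∑ u ∈ S₁ ×ˢ S₁,
        (if κ u.1 = κ u.2 then (1 : ℝ) else 0)) +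
      ((b : ℝ) / (a + b)) * (((S₂.card : ℝ) ^ 2)⁻¹ * ∑ u ∈ S₂ ×ˢ S₂,
        (if κ u.1 = κ u.2 then (1 : ℝ) else 0)) := by
  set V := (S₁ ∪ S₂).image κ with hV
  have hV1 : S₁.image κ ⊆ V := image_subset_image subset_union_left
  have hV2 : S₂.image κ ⊆ V := image_subset_image subset_union_right
  rw [count_rel _ κ V le_rfl, count_rel _ κ V hV1, count_rel _ κ V hV2]
  have hcard : ((S₁ ∪ S₂).card : ℝ) = (a + b) * k := by
    rw [card_union_of_disjoint hd, h1, h2]; push_cast; ring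
  have hc1 : (S₁.card : ℝ) = a * k := by rw [h1]; push_cast; ring
  have hc2 : (S₂.card : ℝ) = b * k := by rw [h2]; push_cast; ring
  have ha' : (0 : ℝ) < a := by exact_mod_cast ha
  have hb' : (0 : ℝ) < b := by exact_mod_cast hb
  have hk' : (0 : ℝ) < k := by exact_mod_cast hk
  rw [hcard, hc1, hc2]
  rw [mul_sum, mul_sum, mul_sum, mul_sum, mul_sum, ← sum_add_distrib]
  refine sum_le_sum fun v _ => ?_
  have hfil : (((S₁ ∪ S₂).filter (fun p => κ p = v)).card : ℝ) =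
      ((S₁.filter (fun p => κ p = v)).card : ℝ) + ((S₂.filter (fun p => κ p = v)).card : ℝ) := by
    rw [filter_union, card_union_of_disjoint (disjoint_filter_filter hd)]
    push_cast; ring
  rw [hfil]
  set x := ((S₁.filter (fun p => κ p = v)).card : ℝ)
  set y := ((S₂.filter (fun p => κ p = v)).card : ℝ)
  have h := titu (x := x) (y := y) ha' hb'
  have e1 : (((a : ℝ) + b) * k) ^ 2 ≠ 0 := by positivity
  have h3 : (((a : ℝ) + b) * k ^ 2)⁻¹ * ((x + y) ^ 2 / (a + b)) ≤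
      (((a : ℝ) + b) * k ^ 2)⁻¹ * (x ^ 2 / a + y ^ 2 / b) :=
    mul_le_mul_of_nonneg_left h (by positivity)
  have e2 : (((a : ℝ) + b) * k ^ 2)⁻¹ * ((x + y) ^ 2 / (a + b)) =
      (((a + b) * k : ℝ) ^ 2)⁻¹ * (x + y) ^ 2 := by
    field_simp
  have e3 : (((a : ℝ) + b) * k ^ 2)⁻¹ * (x ^ 2 / a + y ^ 2 / b) =
      a / (a + b) * (((a * k : ℝ) ^ 2)⁻¹ * x ^ 2) + b / (a + b) * (((b * k : ℝ) ^ 2)⁻¹ * y ^ 2) := by
    field_simp
  rw [← e2, ← e3]
  exact h3

/-- the class of a position for the relation `Rel m j` -/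
noncomputable def cls (m : Multiset (ℕ × ℕ)) (j : ℕ) (p : ℕ) : Finset ℕ → Bool := by
  classical
  exact fun C => if energy m C ≤ H m + j then col C p else false

lemma rel_iff (m : Multiset (ℕ × ℕ)) (j : ℕ) (u : ℕ × ℕ) :
    Rel m j u ↔ cls m j u.1 = cls m j u.2 := by
  unfold Rel cls
  constructor
  · intro h
    ext C
    split_ifs with hC
    · rw [h C hC]
    · rfl
  · intro h C hC
    have := congrFun h C
    simpa [hC] using this

lemma T_H_eq {S : Finset ℕ} (hS : S.Nonempty) (m : Multiset (ℕ × ℕ)) :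
    by classical exact T S (fun m => (H m : ℝ)) m = H m +
      ((S.card : ℝ) ^ 2)⁻¹ * ∑ u ∈ S ×ˢ S, (if cls m 0 u.1 = cls m 0 u.2 then (1 : ℝ) else 0) +
      ((S.card : ℝ) ^ 2)⁻¹ * ∑ u ∈ S ×ˢ S, (if cls m 1 u.1 = cls m 1 u.2 then (1 : ℝ) else 0) := by
  classical
  unfold T
  simp only [H_cons_eq, rel_iff]
  rw [sum_add_distrib, sum_add_distrib, mul_add, mul_add, sum_const, card_product, nsmul_eq_mul]
  have : (S.card : ℝ) ≠ 0 := by
    have := hS.card_pos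
    positivity
  have h2 : ((S.card : ℝ) ^ 2)⁻¹ * (((S.card * S.card : ℕ) : ℝ) * (H m : ℝ)) = H m := by
    push_cast
    field_simp
  rw [h2]

lemma interp {S₁ S₂ : Finset ℕ} (hd : Disjoint S₁ S₂)
    {a b k : ℕ} (ha : 0 < a) (hb : 0 < b) (hk : 0 < k) (h1 : S₁.card = a * k)
    (h2 : S₂.card = b * k) (m : Multiset (ℕ × ℕ)) :
    T (S₁ ∪ S₂) (fun m => (H m : ℝ)) m ≤
      ((a : ℝ) / (a + b)) * T S₁ (fun m => (H m : ℝ)) m +
      ((b : ℝ) / (a + b)) * T S₂ (fun m => (H m : ℝ)) m := by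
  classical
  have n1 : S₁.Nonempty := by
    rw [← card_pos, h1]; positivity
  have n2 : S₂.Nonempty := by
    rw [← card_pos, h2]; positivity
  rw [T_H_eq (n1.mono subset_union_left), T_H_eq n1, T_H_eq n2]
  have r0 := rel_convex hd ha hb hk h1 h2 (cls m 0)
  have r1 := rel_convex hd ha hb hk h1 h2 (cls m 1)
  have ha' : (0 : ℝ) < a := by exact_mod_cast ha
  have hb' : (0 : ℝ) < b := by exact_mod_cast hb
  have e : (H m : ℝ) = (a : ℝ) / (a + b) * H m + (b : ℝ) / (a + b) * H m := by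
    field_simp
  linarith

end Pool.Agent.Lib.MP_fcaed2_pr
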