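import Mathlib

namespace Pool.Agent.Lib.MP_fcaed2_pr

/-- Open necklaces with two beads of each of `t` types. -/
def necklaces (t : ℕ) : Finset (Fin (2 * t) → Fin t) :=
  Finset.univ.filter (fun a => ∀ i, (Finset.univ.filter (fun k => a k = i)).card = 2)

/-- The set `C` of gaps (gap `k` lies between the beads `k` and `k + 1`) is the set of cuts of a
fair split of the necklace `a`: `σ k` is the thief who gets the bead `k`, consecutive beads with no
cut between them go to the same thief, and each thief gets exactly one bead of every type. -/
def FairCuts {t : ℕ} (a : Fin (2 * t) → Fin t) (C : Finset ℕ) : Prop :=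
  C ⊆ Finset.range (2 * t - 1) ∧ ∃ σ : Fin (2 * t) → Fin 2,
    (∀ k l : Fin (2 * t), l.val = k.val + 1 → k.val ∉ C → σ k = σ l) ∧
    ∀ (i : Fin t) (h : Fin 2), (Finset.univ.filter (fun k => a k = i ∧ σ k = h)).card = 1

/-- The least number of cuts in a fair split of `a` between two thieves. -/
noncomputable def minCuts {t : ℕ} (a : Fin (2 * t) → Fin t) : ℕ :=
  sInf {r | ∃ C : Finset ℕ, FairCuts a C ∧ C.card = r}

open Classical in
/-- The probability that the uniformly random necklace with `t` types has the property `p`. -/
noncomputable def prob (t : ℕ) (p : (Fin (2 * t) → Fin t) → Prop) : ℝ :=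
  (((necklaces t).filter p).card : ℝ) / ((necklaces t).card : ℝ)

end Pool.Agent.Lib.MP_fcaed2_pr
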