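import Mathlib
import Pool.Agent.Lib.MP_fcaed2_pr.Defs
import Pool.Agent.Lib.MP_fcaed2_pr.Energy

open Finset

namespace Pool.Agent.Lib.MP_fcaed2_pr

lemma col_zero (C : Finset ℕ) : col C 0 = false := by
  simp [col]

lemma col_succ (C : Finset ℕ) (x : ℕ) : col C (x + 1) = xor (col C x) (decide (x ∈ C)) := by
  unfold col
  by_cases h : x ∈ C
  · have : C.filter (· < x + 1) = insert x (C.filter (· < x)) := by
      ext c
      simp only [mem_filter, mem_insert]
      constructor
      · rintro ⟨h1, h2⟩
        by_cases hc : c = x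
        · exact Or.inl hc
        · exact Or.inr ⟨h1, by omega⟩
      · rintro (rfl | ⟨h1, h2⟩)
        · exact ⟨h, by omega⟩
        · exact ⟨h1, by omega⟩
    rw [this, card_insert_of_notMem (by simp)]
    by_cases h2 : Odd (C.filter (· < x)).card
    · simp [h, h2, Nat.odd_add_one]
    · simp [h, h2, Nat.odd_add_one]
  · have : C.filter (· < x + 1) = C.filter (· < x) := by
      ext c
      simp only [mem_filter]
      constructor
      · rintro ⟨h1, h2⟩
        refine ⟨h1, ?_⟩
        have : c ≠ x := fun hc => h (hc ▸ h1)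
        omega
      · rintro ⟨h1, h2⟩
        exact ⟨h1, by omega⟩
    rw [this]
    simp [h]

/-- the positions of the colour changes of `τ` -/
def chg (N : ℕ) (τ : ℕ → Bool) : Finset ℕ := (range N).filter (fun i => τ i ≠ τ (i + 1))

lemma col_chg (N : ℕ) (τ : ℕ → Bool) {x : ℕ} (hx : x ≤ N) :
    col (chg N τ) x = xor (τ x) (τ 0) := by
  induction x with
  | zero => rw [col_zero]; simp
  | succ x ih =>
    rw [col_succ, ih (by omega)]
    have : decide (x ∈ chg N τ) = xor (τ x) (τ (x + 1)) := by
      unfold chg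
      rw [Bool.eq_iff_iff]
      simp only [mem_filter, mem_range, decide_eq_true_eq]
      constructor
      · rintro ⟨_, h⟩
        cases h1 : τ x <;> cases h2 : τ (x + 1) <;> simp_all
      · intro h
        refine ⟨by omega, ?_⟩
        cases h1 : τ x <;> cases h2 : τ (x + 1) <;> simp_all
    rw [this]
    cases τ x <;> cases τ (x + 1) <;> cases τ 0 <;> rfl

lemma chg_col_subset (N : ℕ) (C : Finset ℕ) : chg N (col C) ⊆ C := by
  intro i hi
  unfold chg at hi
  rw [mem_filter] at hi
  by_contra h
  apply hi.2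
  rw [col_succ]
  simp [h]

lemma exists_cut {D : Finset ℕ} {p q : ℕ} (hpq : p ≤ q) (h : col D p ≠ col D q) :
    ∃ d ∈ D, p ≤ d ∧ d < q := by
  by_contra hcon
  push Not at hcon
  apply h
  unfold col
  congr 3
  ext c
  simp only [mem_filter]
  constructor
  · rintro ⟨h1, h2⟩; exact ⟨h1, by omega⟩
  · rintro ⟨h1, h2⟩
    refine ⟨h1, ?_⟩
    by_contra h3
    have := hcon c h1 (by omega)
    omega

lemma card_chg_le {D : Finset ℕ} {r : ℕ → ℕ} (hr : Monotone r) (N : ℕ) :
    (chg N (fun x => col D (r x))).card ≤ D.card := by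
  classical
  have hex : ∀ i ∈ chg N (fun x => col D (r x)), ∃ d ∈ D, r i ≤ d ∧ d < r (i + 1) := by
    intro i hi
    unfold chg at hi
    rw [mem_filter] at hi
    exact exists_cut (hr (Nat.le_succ i)) hi.2
  choose! f hf using hex
  refine card_le_card_of_injOn f (fun i hi => (hf i hi).1) ?_
  intro i hi j hj hij
  have h1 := hf i hi
  have h2 := hf j hj
  by_contra hne
  rcases lt_or_gt_of_ne hne with hlt | hlt
  · have h3 : r (i + 1) ≤ r j := hr hlt
    have h4 := h1.2.2
    have h5 := h2.2.1
    rw [hij] at h4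
    omega
  · have h3 : r (j + 1) ≤ r i := hr hlt
    have h4 := h2.2.2
    have h5 := h1.2.1
    rw [← hij] at h4
    omega

lemma H_map_le {r : ℕ → ℕ} (hr : Monotone r) (m : Multiset (ℕ × ℕ)) :
    H m ≤ H (m.map (Prod.map r r)) := by
  obtain ⟨D, hD⟩ := exists_H (m.map (Prod.map r r))
  obtain ⟨N, hN⟩ : ∃ N, ∀ u ∈ m, u.1 ≤ N ∧ u.2 ≤ N := by
    induction m using Multiset.induction with
    | empty => exact ⟨0, by simp⟩
    | cons a s ih =>
      have hex : ∃ N, ∀ u ∈ s, u.1 ≤ N ∧ u.2 ≤ N := by
        clear hD ih D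
        induction s using Multiset.induction with
        | empty => exact ⟨0, by simp⟩
        | cons b s ih =>
          obtain ⟨N, hN⟩ := ih
          refine ⟨N + b.1 + b.2, fun u hu => ?_⟩
          rw [Multiset.mem_cons] at hu
          rcases hu with rfl | hu
          · omega
          · have := hN u hu
            omega
      obtain ⟨N, hN⟩ := hex
      refine ⟨N + a.1 + a.2, fun u hu => ?_⟩
      rw [Multiset.mem_cons] at hu
      rcases hu with rfl | hu
      · omega
      · have := hN u hu
        omega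
  refine (H_le m (chg N (fun x => col D (r x)))).trans ?_
  rw [← hD]
  unfold energy
  rw [Multiset.countP_map, ← Multiset.countP_eq_card_filter]
  have h1 := card_chg_le (D := D) hr N
  have h2 : m.countP (fun u => col (chg N (fun x => col D (r x))) u.1 =
      col (chg N (fun x => col D (r x))) u.2) =
      m.countP (fun u => col D (Prod.map r r u).1 = col D (Prod.map r r u).2) := by
    refine Multiset.countP_congr rfl fun u hu => ?_
    rw [col_chg _ _ (hN u hu).1, col_chg _ _ (hN u hu).2]
    simp only [Prod.map_fst, Prod.map_snd]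
    cases col D (r u.1) <;> cases col D (r u.2) <;> cases col D (r 0) <;> simp
  rw [h2]
  omega

/-- the multiset of pairs of positions -/
def mset {t : ℕ} (Q : Fin t × Fin 2 → ℕ) : Multiset (ℕ × ℕ) :=
  ∑ i : Fin t, {(Q (i, 0), Q (i, 1))}

lemma mset_map {t : ℕ} (Q : Fin t × Fin 2 → ℕ) (r : ℕ → ℕ) :
    (mset Q).map (Prod.map r r) = mset (fun x => r (Q x)) := by
  unfold mset
  rw [← Multiset.coe_mapAddMonoidHom, map_sum]
  simp

lemma countP_mset {t : ℕ} (Q : Fin t × Fin 2 → ℕ) (C : Finset ℕ) :
    (mset Q).countP (fun u => col C u.1 = col C u.2) =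
      (univ.filter (fun i : Fin t => col C (Q (i, 0)) = col C (Q (i, 1)))).card := by
  unfold mset
  rw [← Multiset.coe_countPAddMonoidHom, map_sum, card_filter]
  refine sum_congr rfl fun i _ => ?_
  rw [Multiset.coe_countPAddMonoidHom, ← Multiset.cons_zero, Multiset.countP_cons]
  simp

lemma H_strictMono {t n M : ℕ} (Q : Fin t × Fin 2 → Fin n) (o : Fin n ↪o Fin M) :
    H (mset (fun x => (o (Q x) : ℕ))) = H (mset (fun x => (Q x : ℕ))) := by
  classical
  rcases Nat.eq_zero_or_pos n with rfl | hn
  · rcases Nat.eq_zero_or_pos t with rfl | ht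
    · simp [mset]
    · exact (Q (⟨0, ht⟩, 0)).elim0
  -- monotone extension of `o`
  have hM : 0 < M := (o ⟨0, hn⟩).pos
  let r : ℕ → ℕ := fun x => (o ⟨min x (n - 1), by omega⟩ : ℕ)
  have hr : Monotone r := by
    intro x y hxy
    simp only [r]
    have : (⟨min x (n - 1), by omega⟩ : Fin n) ≤ ⟨min y (n - 1), by omega⟩ := by
      simp only [Fin.mk_le_mk]
      omega
    exact_mod_cast o.monotone this
  let s : ℕ → ℕ := fun y => ((univ : Finset (Fin n)).filter (fun k => (o k : ℕ) < y)).card
  have hs : Monotone s := by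
    intro x y hxy
    refine card_le_card fun k hk => ?_
    simp only [mem_filter, mem_univ, true_and] at hk ⊢
    omega
  have hrQ : ∀ x, r (Q x) = (o (Q x) : ℕ) := by
    intro x
    simp only [r]
    have : (⟨min (Q x : ℕ) (n - 1), by omega⟩ : Fin n) = Q x := by
      ext
      simp only
      have := (Q x).isLt
      omega
    rw [this]
  have hsQ : ∀ x, s (o (Q x) : ℕ) = (Q x : ℕ) := by
    intro x
    simp only [s]
    have : (univ : Finset (Fin n)).filter (fun k => (o k : ℕ) < (o (Q x) : ℕ)) = Iio (Q x) := by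
      ext k
      simp only [mem_filter, mem_univ, true_and, mem_Iio, Fin.val_fin_lt, OrderEmbedding.lt_iff_lt]
    rw [this, Fin.card_Iio]
  refine le_antisymm ?_ ?_
  · have := H_map_le hs (mset (fun x => (o (Q x) : ℕ)))
    rw [mset_map] at this
    simpa only [hsQ] using this
  · have := H_map_le hr (mset (fun x => (Q x : ℕ)))
    rw [mset_map] at this
    simpa only [hrQ] using this

end Pool.Agent.Lib.MP_fcaed2_pr
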