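import Mathlib
import Pool.Agent.Lib.MP_fcaed2_pr.Link

open Finset

namespace Pool.Agent.Lib.MP_fcaed2_pr

lemma bead_cases {t : ℕ} (e : Fin t × Fin 2 ≃ Fin (2 * t)) (k : Fin (2 * t)) {i : Fin t}
    (h : (e.symm k).1 = i) : k = e (i, 0) ∨ k = e (i, 1) := by
  have hk : k = e (e.symm k) := (e.apply_symm_apply k).symm
  have h2 : e.symm k = (i, (e.symm k).2) := Prod.ext h rfl
  rw [h2] at hk
  rcases Fin.exists_fin_two.1 ⟨(e.symm k).2, rfl⟩ with h0 | h0
  · left; rw [hk, ← h0]
  · right; rw [hk, ← h0]

/-- gaps of a colouring of the beads -/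
def gaps {n : ℕ} (τ : ℕ → Bool) : Finset ℕ := chg (n - 1) τ

lemma minCuts_le_H {t : ℕ} (e : Fin t × Fin 2 ≃ Fin (2 * t)) :
    minCuts (fun k => (e.symm k).1) ≤ H (mset (fun x => (e x : ℕ))) := by
  classical
  obtain ⟨D, hD⟩ := exists_H (mset (fun x => (e x : ℕ)))
  rw [← hD]
  unfold energy
  rw [countP_mset]
  set Vi := univ.filter (fun i : Fin t => col D (e (i, 0)) = col D (e (i, 1))) with hVi
  let V : Finset ℕ := Vi.image (fun i => (e (i, 0) : ℕ))
  have hV : ∀ i : Fin t, (e (i, 0) : ℕ) ∈ V ↔ i ∈ Vi := by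
    intro i
    simp only [V, mem_image]
    constructor
    · rintro ⟨j, hj, hji⟩
      have h1 : e (j, 0) = e (i, 0) := Fin.ext hji
      have h2 := e.injective h1
      have h3 : j = i := (Prod.ext_iff.1 h2).1
      rw [← h3]
      exact hj
    · exact fun h => ⟨i, h, rfl⟩
  have hV' : ∀ i : Fin t, (e (i, 1) : ℕ) ∉ V := by
    intro i
    simp only [V, mem_image]
    rintro ⟨j, hj, hji⟩
    have h1 : e (j, 0) = e (i, 1) := Fin.ext hji
    have h2 := e.injective h1
    have h3 := (Prod.ext_iff.1 h2).2
    simp at h3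
  let τ : ℕ → Bool := fun x => if x ∈ V then !(col D x) else col D x
  have hτ : ∀ i : Fin t, τ (e (i, 0)) ≠ τ (e (i, 1)) := by
    intro i
    simp only [τ, hV i, if_neg (hV' i)]
    by_cases hi : i ∈ Vi
    · rw [if_pos hi]
      have : col D (e (i, 0)) = col D (e (i, 1)) := by
        rw [hVi, mem_filter] at hi
        exact hi.2
      rw [this]
      simp
    · rw [if_neg hi]
      intro h
      exact hi (by rw [hVi, mem_filter]; exact ⟨mem_univ _, h⟩)
  let C : Finset ℕ := chg (2 * t - 1) τ
  have hCsub : C ⊆ D ∪ (V ∪ V.image (fun x => x - 1)) := by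
    intro i hi
    have hi' := hi
    simp only [C, chg, mem_filter] at hi'
    by_contra hcon
    rw [mem_union, mem_union, not_or, not_or] at hcon
    obtain ⟨h1, h2, h3⟩ := hcon
    apply hi'.2
    have h4 : i + 1 ∉ V := fun h => h3 (mem_image.2 ⟨i + 1, h, by omega⟩)
    simp only [τ, if_neg h2, if_neg h4]
    rw [col_succ]
    simp [h1]
  have hCcard : C.card ≤ D.card + 2 * Vi.card := by
    refine (card_le_card hCsub).trans ((card_union_le _ _).trans ?_)
    have h1 := card_union_le V (V.image (fun x => x - 1))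
    have h2 : (V.image (fun x => x - 1)).card ≤ V.card := card_image_le
    have h3 : V.card ≤ Vi.card := card_image_le
    omega
  refine le_trans (Nat.sInf_le ?_) hCcard
  refine ⟨C, ⟨filter_subset _ _, fun k => if τ k then 1 else 0, ?_, ?_⟩, rfl⟩
  · intro k l hkl hk
    have h1 : τ k = τ l := by
      by_contra hne
      apply hk
      simp only [C, chg, mem_filter, mem_range]
      refine ⟨?_, ?_⟩
      · have := l.isLt
        omega
      · rw [← hkl]; exact hne
    simp only [h1]
  · intro i h
    rw [card_eq_one]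
    have hne := hτ i
    have key : ∀ k : Fin (2 * t), ((fun k => (e.symm k).1) k = i) ↔
        (k = e (i, 0) ∨ k = e (i, 1)) := by
      intro k
      constructor
      · exact fun h => bead_cases e k h
      · rintro (rfl | rfl) <;> simp
    have hh : h = 0 ∨ h = 1 := by
      rcases Fin.exists_fin_two.1 ⟨h, rfl⟩ with h0 | h0
      · exact Or.inl h0
      · exact Or.inr h0
    by_cases h0 : τ (e (i, 0)) = (if h = 1 then true else false)
    · refine ⟨e (i, 0), ?_⟩
      ext k
      simp only [mem_filter, mem_univ, true_and, mem_singleton]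
      have hk := key k
      simp only at hk
      rw [hk]
      constructor
      · rintro ⟨rfl | rfl, h2⟩
        · rfl
        · exfalso
          rcases hh with rfl | rfl <;> cases h3 : τ (e (i, 0)) <;> cases h4 : τ (e (i, 1)) <;>
            simp_all
      · rintro rfl
        refine ⟨Or.inl rfl, ?_⟩
        rcases hh with rfl | rfl <;> simp_all
    · refine ⟨e (i, 1), ?_⟩
      ext k
      simp only [mem_filter, mem_univ, true_and, mem_singleton]
      have hk := key k
      simp only at hk
      rw [hk]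
      constructor
      · rintro ⟨rfl | rfl, h2⟩
        · exfalso
          rcases hh with rfl | rfl <;> cases h3 : τ (e (i, 0)) <;> cases h4 : τ (e (i, 1)) <;>
            simp_all
        · rfl
      · rintro rfl
        refine ⟨Or.inr rfl, ?_⟩
        rcases hh with rfl | rfl <;> cases h3 : τ (e (i, 0)) <;> cases h4 : τ (e (i, 1)) <;>
            simp_all

lemma H_le_minCuts {t : ℕ} (e : Fin t × Fin 2 ≃ Fin (2 * t)) :
    H (mset (fun x => (e x : ℕ))) ≤ minCuts (fun k => (e.symm k).1) := by
  classical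
  have hne : {r | ∃ C : Finset ℕ, FairCuts (fun k => (e.symm k).1) C ∧ C.card = r}.Nonempty := by
    refine ⟨_, range (2 * t - 1), ⟨subset_refl _, fun k => (e.symm k).2, ?_, ?_⟩, rfl⟩
    · intro k l hkl hk
      exfalso
      apply hk
      have := l.isLt
      rw [mem_range]
      omega
    · intro i h
      rw [card_eq_one]
      refine ⟨e (i, h), ?_⟩
      ext k
      simp only [mem_filter, mem_univ, true_and, mem_singleton]
      rw [← Equiv.symm_apply_eq, Prod.ext_iff]
  obtain ⟨C, ⟨hC, σ, hσ, hfair⟩, hcard⟩ := Nat.sInf_mem hne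
  unfold minCuts
  rw [← hcard]
  let τ : ℕ → Bool := fun x => if hx : x < 2 * t then decide (σ ⟨x, hx⟩ = 1) else false
  have hτ : ∀ k : Fin (2 * t), τ k = decide (σ k = 1) := by
    intro k
    simp only [τ, k.isLt, dif_pos, Fin.eta]
  have hsub : chg (2 * t - 1) τ ⊆ C := by
    intro i hi
    simp only [chg, mem_filter, mem_range] at hi
    by_contra hiC
    apply hi.2
    have h1 : i < 2 * t := by omega
    have h2 : i + 1 < 2 * t := by omega
    have := hσ ⟨i, h1⟩ ⟨i + 1, h2⟩ rfl hiC
    simp only [τ, h1, h2, dif_pos, this]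
  refine (H_le _ (chg (2 * t - 1) τ)).trans ?_
  unfold energy
  rw [countP_mset]
  have hz : (univ.filter (fun i : Fin t => col (chg (2 * t - 1) τ) (e (i, 0)) =
      col (chg (2 * t - 1) τ) (e (i, 1)))) = ∅ := by
    rw [filter_eq_empty_iff]
    intro i _ h
    rw [col_chg _ _ (by have := (e (i, 0)).isLt; omega),
      col_chg _ _ (by have := (e (i, 1)).isLt; omega), hτ, hτ] at h
    have hσe : σ (e (i, 0)) = σ (e (i, 1)) := by
      have h3 : (decide (σ (e (i, 0)) = 1)) = decide (σ (e (i, 1)) = 1) := by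
        revert h
        cases decide (σ (e (i, 0)) = 1) <;> cases decide (σ (e (i, 1)) = 1) <;>
          cases τ 0 <;> simp
      rcases Fin.exists_fin_two.1 ⟨σ (e (i, 0)), rfl⟩ with h0 | h0 <;>
      rcases Fin.exists_fin_two.1 ⟨σ (e (i, 1)), rfl⟩ with h1 | h1 <;>
      simp_all
    have hf := hfair i (σ (e (i, 0)))
    have h4 : 1 < (univ.filter (fun k => (fun k => (e.symm k).1) k = i ∧
        σ k = σ (e (i, 0)))).card := by
      rw [one_lt_card]
      refine ⟨e (i, 0), ?_, e (i, 1), ?_, ?_⟩
      · simp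
      · simp [hσe]
      · intro h5
        have := e.injective h5
        simp at this
    omega
  rw [hz, card_empty]
  have := card_le_card hsub
  omega

lemma H_eq_minCuts {t : ℕ} (e : Fin t × Fin 2 ≃ Fin (2 * t)) :
    H (mset (fun x => (e x : ℕ))) = minCuts (fun k => (e.symm k).1) :=
  le_antisymm (H_le_minCuts e) (minCuts_le_H e)

end Pool.Agent.Lib.MP_fcaed2_pr
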