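import Mathlib
import Pool.Agent.Lib.MP_fcaed2_pr.Necklace
import Pool.Agent.Lib.MP_fcaed2_pr.Average

open Finset

namespace Pool.Agent.Lib.MP_fcaed2_pr

/-- pair of positions as natural numbers -/
def pr {M : ℕ} (u : Fin M × Fin M) : ℕ × ℕ := (u.1, u.2)

lemma T_range (M : ℕ) (φ : Multiset (ℕ × ℕ) → ℝ) (m : Multiset (ℕ × ℕ)) :
    T (range M) φ m = ((M : ℝ) ^ 2)⁻¹ * ∑ u : Fin M × Fin M, φ (pr u ::ₘ m) := by
  unfold T
  rw [card_range, sum_product, Fintype.sum_prod_type, sum_range]
  congr 1
  refine sum_congr rfl fun x _ => ?_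
  rw [sum_range]
  rfl

lemma T_iter_sum (M t : ℕ) (φ : Multiset (ℕ × ℕ) → ℝ) (m : Multiset (ℕ × ℕ)) :
    (T (range M))^[t] φ m =
      (((M : ℝ) ^ 2) ^ t)⁻¹ * ∑ P : Fin t → Fin M × Fin M, φ ((∑ i, {pr (P i)}) + m) := by
  induction t generalizing m with
  | zero => simp
  | succ t ih =>
    rw [Function.iterate_succ_apply', T_range]
    simp only [ih]
    rw [← mul_sum, ← mul_assoc]
    congr 1
    · rw [pow_succ ((M : ℝ) ^ 2) t, mul_inv_rev]
    · rw [← Equiv.sum_comp (Fin.consEquiv (fun _ : Fin (t + 1) => Fin M × Fin M))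
        (fun P : Fin (t + 1) → Fin M × Fin M =>
          φ ((∑ i, ({pr (P i)} : Multiset (ℕ × ℕ))) + m))]
      conv_rhs => rw [Fintype.sum_prod_type]
      refine sum_congr rfl fun u _ => sum_congr rfl fun P _ => ?_
      congr 1
      simp only [Fin.consEquiv, Equiv.coe_fn_mk]
      rw [Fin.sum_univ_succ]
      simp only [Fin.cons_zero, Fin.cons_succ]
      rw [← Multiset.singleton_add]
      abel

/-- average over `t` pairs of `g (H ·)` -/
noncomputable def avg (t M : ℕ) (g : ℕ → ℝ) : ℝ := (T (range M))^[t] (fun m => g (H m)) 0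

lemma avg_eq (t M : ℕ) (g : ℕ → ℝ) :
    avg t M g = (((M : ℝ) ^ 2) ^ t)⁻¹ *
      ∑ Q : Fin t × Fin 2 → Fin M, g (H (mset (fun x => (Q x : ℕ)))) := by
  unfold avg
  rw [T_iter_sum]
  congr 1
  refine Fintype.sum_equiv ((Equiv.arrowCongr (Equiv.refl _)
    (finTwoArrowEquiv (Fin M)).symm).trans (Equiv.curry _ _ _).symm) _ _ fun P => ?_
  rw [add_zero]
  congr 2

/-- mean over the random necklace -/
noncomputable def neckMean (t : ℕ) (g : ℕ → ℝ) : ℝ :=
  (∑ a ∈ necklaces t, g (minCuts a)) / ((necklaces t).card : ℝ)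

lemma mem_necklaces {t : ℕ} (e : Fin t × Fin 2 ≃ Fin (2 * t)) :
    (fun k => (e.symm k).1) ∈ necklaces t := by
  classical
  unfold necklaces
  rw [mem_filter]
  refine ⟨mem_univ _, fun i => ?_⟩
  have : univ.filter (fun k => (fun k => (e.symm k).1) k = i) = {e (i, 0), e (i, 1)} := by
    ext k
    simp only [mem_filter, mem_univ, true_and, mem_insert, mem_singleton]
    constructor
    · exact fun h => bead_cases e k h
    · rintro (rfl | rfl) <;> simp
  rw [this, card_pair]
  intro h
  have := e.injective h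
  simp at this

lemma exists_equiv {t : ℕ} {a : Fin (2 * t) → Fin t} (ha : a ∈ necklaces t) :
    ∃ e : Fin t × Fin 2 ≃ Fin (2 * t), ∀ k, (e.symm k).1 = a k := by
  classical
  unfold necklaces at ha
  rw [mem_filter] at ha
  have h : ∀ i, Nonempty ({k // a k = i} ≃ Fin 2) := by
    intro i
    refine ⟨Fintype.equivFinOfCardEq ?_⟩
    rw [Fintype.card_subtype]
    exact ha.2 i
  let E : Fin (2 * t) ≃ Fin t × Fin 2 :=
    ((Equiv.sigmaFiberEquiv a).symm.trans (Equiv.sigmaCongrRight (fun i => (h i).some))).trans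
      (Equiv.sigmaEquivProd _ _)
  exact ⟨E.symm, fun k => rfl⟩

/-- permutations preserving the type -/
noncomputable def kap (t : ℕ) : ℕ := by
  classical
  exact (univ.filter (fun ρ : Equiv.Perm (Fin t × Fin 2) => ∀ x, (ρ x).1 = x.1)).card

lemma kap_pos (t : ℕ) : 0 < kap t := by
  classical
  unfold kap
  rw [card_pos]
  exact ⟨1, by simp⟩

lemma card_fiber {t : ℕ} {a : Fin (2 * t) → Fin t} (ha : a ∈ necklaces t) :
    by classical exact (univ.filter (fun e : Fin t × Fin 2 ≃ Fin (2 * t) =>
      (fun k => (e.symm k).1) = a)).card = kap t := by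
  classical
  obtain ⟨e₀, he₀⟩ := exists_equiv ha
  unfold kap
  refine card_bij (fun e _ => e.trans e₀.symm) ?_ ?_ ?_
  · intro e he
    rw [mem_filter] at he ⊢
    refine ⟨mem_univ _, fun x => ?_⟩
    rw [Equiv.trans_apply, he₀, ← he.2]
    simp
  · intro e _ e' _ h
    ext x
    have := Equiv.ext_iff.1 h x
    simp only [Equiv.trans_apply, EmbeddingLike.apply_eq_iff_eq] at this
    rw [this]
  · intro ρ hρ
    rw [mem_filter] at hρ
    refine ⟨ρ.trans e₀, ?_, ?_⟩
    · rw [mem_filter]
      refine ⟨mem_univ _, ?_⟩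
      ext k
      have h1 := hρ.2 (ρ.symm (e₀.symm k))
      rw [Equiv.apply_symm_apply, he₀] at h1
      have h2 : ((ρ.trans e₀).symm k) = ρ.symm (e₀.symm k) := rfl
      simp only [h2]
      rw [← h1]
    · ext x <;> simp

lemma sum_equivs {t : ℕ} (h : (Fin (2 * t) → Fin t) → ℝ) :
    ∑ e : Fin t × Fin 2 ≃ Fin (2 * t), h (fun k => (e.symm k).1) =
      kap t * ∑ a ∈ necklaces t, h a := by
  classical
  rw [← sum_fiberwise_of_maps_to (s := univ) (t := necklaces t)
    (g := fun e : Fin t × Fin 2 ≃ Fin (2 * t) => (fun k => (e.symm k).1))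
    (fun e _ => mem_necklaces e), mul_sum]
  refine sum_congr rfl fun a ha => ?_
  rw [sum_congr rfl (g := fun _ => h a)]
  · rw [sum_const, nsmul_eq_mul]
    congr 1
    exact_mod_cast card_fiber ha
  · intro e he
    rw [mem_filter] at he
    rw [he.2]

lemma card_equivs (t : ℕ) : (Fintype.card (Fin t × Fin 2 ≃ Fin (2 * t)) : ℝ) =
    kap t * (necklaces t).card := by
  have := sum_equivs (t := t) (fun _ => (1 : ℝ))
  simpa using this

lemma necklaces_card_pos (t : ℕ) : 0 < ((necklaces t).card : ℝ) := by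
  have e : Fin t × Fin 2 ≃ Fin (2 * t) := Fintype.equivFinOfCardEq (by simp [mul_comm])
  have : 0 < (necklaces t).card := card_pos.2 ⟨_, mem_necklaces e⟩
  exact_mod_cast this

/-- an order embedding and a labelling give an injective map -/
def glue {t M : ℕ} (p : (Fin (2 * t) ↪o Fin M) × (Fin t × Fin 2 ≃ Fin (2 * t))) :
    Fin t × Fin 2 ↪ Fin M := p.2.toEmbedding.trans p.1.toEmbedding

lemma glue_bijective (t M : ℕ) : Function.Bijective (glue (t := t) (M := M)) := by
  classical
  constructor
  · rintro ⟨o, e⟩ ⟨o', e'⟩ h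
    have hx : ∀ x, o (e x) = o' (e' x) := fun x => DFunLike.congr_fun h x
    set S : Finset (Fin M) := univ.map (glue (o, e)) with hS
    have hc : S.card = 2 * t := by
      rw [hS, card_map, card_univ, Fintype.card_prod, Fintype.card_fin, Fintype.card_fin, mul_comm]
    have h1 : o = S.orderEmbOfFin hc := by
      refine orderEmbOfFin_unique' hc fun k => ?_
      rw [hS, mem_map]
      exact ⟨e.symm k, mem_univ _, by simp [glue]⟩
    have h2 : o' = S.orderEmbOfFin hc := by
      refine orderEmbOfFin_unique' hc fun k => ?_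
      rw [hS, h, mem_map]
      exact ⟨e'.symm k, mem_univ _, by simp [glue]⟩
    have h3 : o = o' := h1.trans h2.symm
    subst h3
    have h4 : e = e' := by
      ext x
      rw [o.injective (hx x)]
    rw [h4]
  · intro Q
    set S : Finset (Fin M) := univ.map Q with hS
    have hc : S.card = 2 * t := by
      rw [hS, card_map, card_univ, Fintype.card_prod, Fintype.card_fin, Fintype.card_fin, mul_comm]
    let o := S.orderEmbOfFin hc
    have hr : ∀ x, ∃ k, o k = Q x := by
      intro x
      have : Q x ∈ Set.range o := by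
        rw [range_orderEmbOfFin, hS]
        simp
      exact this
    choose f hf using hr
    have hinj : Function.Injective f := by
      intro x y hxy
      apply Q.injective
      rw [← hf x, ← hf y, hxy]
    have hbij : Function.Bijective f := by
      rw [Fintype.bijective_iff_injective_and_card]
      refine ⟨hinj, ?_⟩
      rw [Fintype.card_prod, Fintype.card_fin, Fintype.card_fin, Fintype.card_fin, mul_comm]
    refine ⟨(o, Equiv.ofBijective f hbij), ?_⟩
    ext x
    simp only [glue, Function.Embedding.trans_apply, Equiv.coe_toEmbedding,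
      Equiv.ofBijective_apply, RelEmbedding.coe_toEmbedding]
    rw [hf]

lemma sum_emb (t M : ℕ) (g : ℕ → ℝ) :
    ∑ Q : Fin t × Fin 2 ↪ Fin M, g (H (mset (fun x => (Q x : ℕ)))) =
      (Fintype.card (Fin t × Fin 2 ↪ Fin M)) * neckMean t g := by
  classical
  have hcard : (Fintype.card (Fin t × Fin 2 ↪ Fin M) : ℝ) =
      (Fintype.card (Fin (2 * t) ↪o Fin M) : ℝ) * (kap t * (necklaces t).card) := by
    rw [← card_equivs, ← Nat.cast_mul, ← Fintype.card_prod,
      Fintype.card_of_bijective (glue_bijective t M)]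
  rw [hcard, ← (glue_bijective t M).sum_comp, Fintype.sum_prod_type]
  have h1 : ∀ (o : Fin (2 * t) ↪o Fin M), ∑ e : Fin t × Fin 2 ≃ Fin (2 * t),
      g (H (mset (fun x => ((glue (o, e)) x : ℕ)))) =
      kap t * ∑ a ∈ necklaces t, g (minCuts a) := by
    intro o
    rw [← sum_equivs (fun a => g (minCuts a))]
    refine sum_congr rfl fun e _ => ?_
    rw [← H_eq_minCuts e]
    congr 1
    exact H_strictMono (fun x => e x) o
  rw [sum_congr rfl fun o _ => h1 o, sum_const, card_univ, nsmul_eq_mul]
  unfold neckMean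
  have := necklaces_card_pos t
  field_simp

end Pool.Agent.Lib.MP_fcaed2_pr
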