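import Mathlib
import Pool.Agent.Lib.MP_fcaed2_pr.Average

open Finset

namespace Pool.Agent.Lib.MP_fcaed2_pr

/-- real valued energy -/
noncomputable def HR (m : Multiset (ℕ × ℕ)) : ℝ := (H m : ℝ)

/-- adding a pair increases by at most `2` -/
def Lip (φ : Multiset (ℕ × ℕ) → ℝ) : Prop :=
  ∀ u m, φ m ≤ φ (u ::ₘ m) ∧ φ (u ::ₘ m) ≤ φ m + 2

lemma HR_lip : Lip HR := by
  intro u m
  unfold HR
  constructor
  · exact_mod_cast H_le_cons u m
  · exact_mod_cast H_cons_le u m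

lemma Lip.le_T {φ : Multiset (ℕ × ℕ) → ℝ} (h : Lip φ) {S : Finset ℕ} (hS : S.Nonempty)
    (m : Multiset (ℕ × ℕ)) : φ m ≤ T S φ m ∧ T S φ m ≤ φ m + 2 := by
  constructor
  · have h1 : T S (fun _ => φ m) m = φ m := T_eq_const hS (fun _ _ => rfl)
    exact h1.symm.le.trans (T_mono_local fun u _ => (h u m).1)
  · have h1 : T S (fun _ => φ m + 2) m = φ m + 2 := T_eq_const hS (fun _ _ => rfl)
    exact (T_mono_local fun u _ => (h u m).2).trans h1.le

lemma Lip.T {φ : Multiset (ℕ × ℕ) → ℝ} (h : Lip φ) {S : Finset ℕ} (hS : S.Nonempty) :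
    Lip (T S φ) := by
  intro u m
  constructor
  · refine mul_le_mul_of_nonneg_left (sum_le_sum fun v _ => ?_) (by positivity)
    rw [Multiset.cons_swap]
    exact (h u _).1
  · have h1 := congrFun (T_add_const hS φ 2) m
    rw [← h1]
    refine mul_le_mul_of_nonneg_left (sum_le_sum fun v _ => ?_) (by positivity)
    rw [Multiset.cons_swap]
    exact (h u _).2

lemma Lip.iter {φ : Multiset (ℕ × ℕ) → ℝ} (h : Lip φ) {S : Finset ℕ} (hS : S.Nonempty) (k : ℕ) :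
    Lip ((Pool.Agent.Lib.MP_fcaed2_pr.T S)^[k] φ) := by
  induction k with
  | zero => exact h
  | succ k ih => rw [Function.iterate_succ_apply']; exact ih.T hS

/-- the interpolating quantity -/
noncomputable def F (S₁ S₂ : Finset ℕ) (a b c : ℕ) : ℝ :=
  (T (S₁ ∪ S₂))^[a] ((T S₁)^[b] ((T S₂)^[c] HR)) 0

lemma F_step {S₁ S₂ : Finset ℕ} (hd : Disjoint S₁ S₂)
    {t₁ t₂ k : ℕ} (ha : 0 < t₁) (hb : 0 < t₂) (hk : 0 < k) (h1 : S₁.card = t₁ * k)
    (h2 : S₂.card = t₂ * k) (a b c : ℕ) :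
    F S₁ S₂ (a + 1) b c ≤ ((t₁ : ℝ) / (t₁ + t₂)) * F S₁ S₂ a (b + 1) c +
      ((t₂ : ℝ) / (t₁ + t₂)) * F S₁ S₂ a b (c + 1) := by
  have e0 : (T (S₁ ∪ S₂)) ((T S₁)^[b] ((T S₂)^[c] HR)) =
      (T S₁)^[b] ((T S₂)^[c] (T (S₁ ∪ S₂) HR)) := by
    rw [((T_comm (S₁ ∪ S₂) S₁).iterate_right b).eq, ((T_comm (S₁ ∪ S₂) S₂).iterate_right c).eq]
  have e1 : (T S₁)^[b + 1] ((T S₂)^[c] HR) = (T S₁)^[b] ((T S₂)^[c] (T S₁ HR)) := by
    rw [Function.iterate_succ_apply, ((T_comm S₁ S₂).iterate_right c).eq]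
  have e2 : (T S₂)^[c + 1] HR = (T S₂)^[c] (T S₂ HR) := Function.iterate_succ_apply _ _ _
  unfold F
  rw [Function.iterate_succ_apply, e0, e1, e2]
  have h3 : ∀ m, T (S₁ ∪ S₂) HR m ≤ (fun m => ((t₁ : ℝ) / (t₁ + t₂)) * T S₁ HR m +
      ((t₂ : ℝ) / (t₁ + t₂)) * T S₂ HR m) m := fun m => interp hd ha hb hk h1 h2 m
  have h4 := T_iter_mono (S := S₂) h3 c
  have h5 := T_iter_mono (S := S₁) h4 b
  have h6 := T_iter_mono (S := S₁ ∪ S₂) h5 a 0
  rw [T_iter_lin, T_iter_lin, T_iter_lin] at h6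
  exact h6

lemma F_b {S₁ S₂ : Finset ℕ} (n1 : S₁.Nonempty) (n2 : S₂.Nonempty) (b c : ℕ) :
    F S₁ S₂ 0 b c ≤ F S₁ S₂ 0 (b + 1) c ∧ F S₁ S₂ 0 (b + 1) c ≤ F S₁ S₂ 0 b c + 2 := by
  unfold F
  rw [Function.iterate_zero, id, id, Function.iterate_succ_apply']
  exact ((HR_lip.iter n2 c).iter n1 b).le_T n1 0

lemma F_c {S₁ S₂ : Finset ℕ} (n1 : S₁.Nonempty) (n2 : S₂.Nonempty) (b c : ℕ) :
    F S₁ S₂ 0 b c ≤ F S₁ S₂ 0 b (c + 1) ∧ F S₁ S₂ 0 b (c + 1) ≤ F S₁ S₂ 0 b c + 2 := by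
  unfold F
  rw [Function.iterate_zero, id, id, Function.iterate_succ_apply',
    ← ((T_comm S₂ S₁).iterate_right b).eq]
  exact ((HR_lip.iter n2 c).iter n1 b).le_T n2 0

lemma F_b_add {S₁ S₂ : Finset ℕ} (n1 : S₁.Nonempty) (n2 : S₂.Nonempty) (b c d : ℕ) :
    F S₁ S₂ 0 b c ≤ F S₁ S₂ 0 (b + d) c ∧ F S₁ S₂ 0 (b + d) c ≤ F S₁ S₂ 0 b c + 2 * d := by
  induction d with
  | zero => simp
  | succ d ih =>
    have := F_b n1 n2 (b + d) c
    rw [← add_assoc]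
    push_cast
    constructor <;> linarith [ih.1, ih.2, this.1, this.2]

lemma F_c_add {S₁ S₂ : Finset ℕ} (n1 : S₁.Nonempty) (n2 : S₂.Nonempty) (b c d : ℕ) :
    F S₁ S₂ 0 b c ≤ F S₁ S₂ 0 b (c + d) ∧ F S₁ S₂ 0 b (c + d) ≤ F S₁ S₂ 0 b c + 2 * d := by
  induction d with
  | zero => simp
  | succ d ih =>
    have := F_c n1 n2 b (c + d)
    rw [← add_assoc]
    push_cast
    constructor <;> linarith [ih.1, ih.2, this.1, this.2]

lemma F_base {S₁ S₂ : Finset ℕ} (n1 : S₁.Nonempty) (n2 : S₂.Nonempty) {b c t₁ t₂ : ℕ}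
    (h : b + c = t₁ + t₂) : F S₁ S₂ 0 b c ≤ F S₁ S₂ 0 t₁ t₂ + 2 * |(b : ℝ) - t₁| := by
  rcases le_total b t₁ with hb | hb
  · obtain ⟨d, rfl⟩ := Nat.exists_eq_add_of_le hb
    have hc : c = t₂ + d := by omega
    subst hc
    have h1 := (F_c_add n1 n2 b t₂ d).2
    have h2 := (F_b_add n1 n2 b t₂ d).1
    have h3 : |(b : ℝ) - ((b + d : ℕ) : ℝ)| = d := by
      push_cast
      rw [show (b : ℝ) - (b + d) = -(d : ℝ) by ring, abs_neg, Nat.abs_cast]
    rw [h3]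
    linarith
  · obtain ⟨d, rfl⟩ := Nat.exists_eq_add_of_le hb
    have hc : t₂ = c + d := by omega
    subst hc
    have h1 := (F_b_add n1 n2 t₁ c d).2
    have h2 := (F_c_add n1 n2 t₁ c d).1
    have h3 : |((t₁ + d : ℕ) : ℝ) - t₁| = d := by
      push_cast
      rw [show (t₁ : ℝ) + d - t₁ = (d : ℝ) by ring, Nat.abs_cast]
    rw [h3]
    linarith

lemma F_potential {S₁ S₂ : Finset ℕ} (hd : Disjoint S₁ S₂)
    {t₁ t₂ k : ℕ} (ht₁ : 0 < t₁) (ht₂ : 0 < t₂) (hk : 0 < k) (h1 : S₁.card = t₁ * k)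
    (h2 : S₂.card = t₂ * k) {s x : ℝ} (hs : 0 < s) (hx : x = (t₁ : ℝ) / (t₁ + t₂)) (a b c : ℕ)
    (h : a + b + c = t₁ + t₂) :
    F S₁ S₂ a b c ≤ F S₁ S₂ 0 t₁ t₂ +
      2 * (((b + a * x - t₁) ^ 2 + a * x * (1 - x)) / (2 * s) + s / 2) := by
  have n1 : S₁.Nonempty := by
    rw [← card_pos, h1]; positivity
  have n2 : S₂.Nonempty := by
    rw [← card_pos, h2]; positivity
  have ha' : (0 : ℝ) < t₁ := by exact_mod_cast ht₁
  have hb' : (0 : ℝ) < t₂ := by exact_mod_cast ht₂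
  have hx0 : 0 ≤ x := by rw [hx]; positivity
  have hx1 : 1 - x = (t₂ : ℝ) / (t₁ + t₂) := by rw [hx]; field_simp; ring
  have hx1' : 0 ≤ 1 - x := by rw [hx1]; positivity
  induction a generalizing b c with
  | zero =>
    refine (F_base n1 n2 (by omega : b + c = t₁ + t₂)).trans ?_
    have : |(b : ℝ) - t₁| ≤ ((b - t₁ : ℝ) ^ 2) / (2 * s) + s / 2 := by
      have e : ((b - t₁ : ℝ) ^ 2) / (2 * s) + s / 2 - |(b : ℝ) - t₁| =
          (|(b : ℝ) - t₁| - s) ^ 2 / (2 * s) := by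
        rw [← sq_abs ((b : ℝ) - t₁)]
        field_simp
        ring
      have : 0 ≤ (|(b : ℝ) - t₁| - s) ^ 2 / (2 * s) := by positivity
      linarith
    push_cast
    simp only [zero_mul, add_zero]
    linarith
  | succ a ih =>
    have hstep := F_step hd ht₁ ht₂ hk h1 h2 a b c
    rw [← hx, ← hx1] at hstep
    have i1 := ih (b + 1) c (by omega)
    have i2 := ih b (c + 1) (by omega)
    have j1 := mul_le_mul_of_nonneg_left i1 hx0
    have j2 := mul_le_mul_of_nonneg_left i2 hx1'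
    refine hstep.trans ((add_le_add j1 j2).trans (le_of_eq ?_))
    push_cast
    field_simp
    ring

lemma F_le_F {S₁ S₂ : Finset ℕ} (hd : Disjoint S₁ S₂)
    {t₁ t₂ k : ℕ} (ht₁ : 0 < t₁) (ht₂ : 0 < t₂) (hk : 0 < k) (h1 : S₁.card = t₁ * k)
    (h2 : S₂.card = t₂ * k) :
    F S₁ S₂ (t₁ + t₂) 0 0 ≤ F S₁ S₂ 0 t₁ t₂ + 2 * Real.sqrt ((t₁ : ℝ) * t₂ / (t₁ + t₂)) := by
  have ha' : (0 : ℝ) < t₁ := by exact_mod_cast ht₁
  have hb' : (0 : ℝ) < t₂ := by exact_mod_cast ht₂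
  set s := Real.sqrt ((t₁ : ℝ) * t₂ / (t₁ + t₂)) with hs
  have hs0 : 0 < s := Real.sqrt_pos.2 (by positivity)
  have hs2 : s ^ 2 = (t₁ : ℝ) * t₂ / (t₁ + t₂) := Real.sq_sqrt (by positivity)
  have h := F_potential hd ht₁ ht₂ hk h1 h2 hs0 rfl (t₁ + t₂) 0 0 (by omega)
  refine h.trans (le_of_eq ?_)
  have e1 : ((0 : ℕ) + ((t₁ + t₂ : ℕ) : ℝ) * ((t₁ : ℝ) / (t₁ + t₂)) - t₁ : ℝ) = 0 := by
    push_cast
    field_simp
    ring
  have e2 : ((t₁ + t₂ : ℕ) : ℝ) * ((t₁ : ℝ) / (t₁ + t₂)) * (1 - (t₁ : ℝ) / (t₁ + t₂)) = s ^ 2 := by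
    rw [hs2]
    push_cast
    field_simp
    ring
  rw [e1, e2]
  field_simp
  ring

lemma T_shift (n n' : ℕ) (φ : Multiset (ℕ × ℕ) → ℝ) (m₁ m₂ : Multiset (ℕ × ℕ)) :
    T ((range n').map (addRightEmbedding n)) φ (m₁ + m₂.map (shift n)) =
      T (range n') (fun m => φ (m₁ + m.map (shift n))) m₂ := by
  unfold T
  rw [card_map]
  congr 1
  symm
  refine sum_nbij (fun u => shift n u) ?_ ?_ ?_ ?_
  · intro u hu
    simp only [mem_product, mem_map, addRightEmbedding_apply, shift] at hu ⊢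
    exact ⟨⟨u.1, hu.1, rfl⟩, ⟨u.2, hu.2, rfl⟩⟩
  · intro u _ v _ h
    simp only [shift, Prod.mk.injEq, add_left_inj] at h
    exact Prod.ext h.1 h.2
  · intro u hu
    simp only [coe_product, coe_map, Set.mem_prod, Set.mem_image, addRightEmbedding_apply] at hu
    obtain ⟨⟨a, ha, ha'⟩, ⟨b, hb, hb'⟩⟩ := hu
    refine ⟨(a, b), ?_, ?_⟩
    · simp only [coe_product, Set.mem_prod]
      exact ⟨ha, hb⟩
    · simp only [shift]
      exact Prod.ext ha' hb'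
  · intro u _
    simp only [Multiset.map_cons, Multiset.add_cons]

lemma shift_iter (n n' c : ℕ) {m₁ : Multiset (ℕ × ℕ)} (h : ∀ u ∈ m₁, u.1 < n ∧ u.2 < n)
    (hn' : 0 < n') (m₂ : Multiset (ℕ × ℕ)) :
    (T ((range n').map (addRightEmbedding n)))^[c] HR (m₁ + m₂.map (shift n)) ≤
      HR m₁ + (T (range n'))^[c] HR m₂ := by
  induction c generalizing m₂ with
  | zero =>
    simp only [Function.iterate_zero, id, HR]
    exact_mod_cast H_add_shift h m₂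
  | succ c ih =>
    rw [Function.iterate_succ_apply', Function.iterate_succ_apply', T_shift]
    refine (T_mono ih m₂).trans (le_of_eq ?_)
    have h2 := congrFun (T_add_const (S := range n') ⟨0, mem_range.2 hn'⟩
      ((T (range n'))^[c] HR) (HR m₁)) m₂
    rw [add_comm (HR m₁), ← h2]
    congr 1
    ext m
    ring

lemma F_split (n n' b c : ℕ) (hn : 0 < n) (hn' : 0 < n') :
    F (range n) ((range n').map (addRightEmbedding n)) 0 b c ≤
      (T (range n))^[b] HR 0 + (T (range n'))^[c] HR 0 := by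
  have key : ∀ m₁ : Multiset (ℕ × ℕ), (∀ u ∈ m₁, u.1 < n ∧ u.2 < n) →
      (T (range n))^[b] ((T ((range n').map (addRightEmbedding n)))^[c] HR) m₁ ≤
        (T (range n))^[b] HR m₁ + (T (range n'))^[c] HR 0 := by
    induction b with
    | zero =>
      intro m₁ h
      have := shift_iter n n' c h hn' 0
      simpa using this
    | succ b ih =>
      intro m₁ h
      rw [Function.iterate_succ_apply', Function.iterate_succ_apply']
      have h2 := congrFun (T_add_const (S := range n) ⟨0, mem_range.2 hn⟩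
        ((T (range n))^[b] HR) ((T (range n'))^[c] HR 0)) m₁
      rw [← h2]
      refine T_mono_local fun u hu => ih _ fun v hv => ?_
      rw [Multiset.mem_cons] at hv
      rcases hv with rfl | hv
      · rw [mem_product, mem_range, mem_range] at hu
        exact hu
      · exact h v hv
  unfold F
  simp only [Function.iterate_zero, id]
  exact key 0 (by simp)

/-- average energy of `t` random pairs of positions in `range M` -/
noncomputable def A (t M : ℕ) : ℝ := (T (range M))^[t] HR 0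

lemma A_subadd {t₁ t₂ k : ℕ} (ht₁ : 0 < t₁) (ht₂ : 0 < t₂) (hk : 0 < k) :
    A (t₁ + t₂) ((t₁ + t₂) * k) ≤ A t₁ (t₁ * k) + A t₂ (t₂ * k) +
      2 * Real.sqrt ((t₁ : ℝ) * t₂ / (t₁ + t₂)) := by
  set S₁ := range (t₁ * k) with hS₁
  set S₂ := (range (t₂ * k)).map (addRightEmbedding (t₁ * k)) with hS₂
  have hd : Disjoint S₁ S₂ := by
    rw [disjoint_left]
    intro x hx hx'
    simp only [hS₁, hS₂, mem_range, mem_map, addRightEmbedding_apply] at hx hx'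
    obtain ⟨y, _, rfl⟩ := hx'
    omega
  have hU : S₁ ∪ S₂ = range ((t₁ + t₂) * k) := by
    ext x
    simp only [hS₁, hS₂, mem_union, mem_range, mem_map, addRightEmbedding_apply]
    rw [add_mul]
    constructor
    · rintro (h | ⟨y, hy, rfl⟩) <;> omega
    · intro h
      by_cases hx : x < t₁ * k
      · exact Or.inl hx
      · exact Or.inr ⟨x - t₁ * k, by omega, by omega⟩
  have h1 := F_le_F hd ht₁ ht₂ hk (card_range _) (by rw [card_map, card_range])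
  have h2 := F_split (t₁ * k) (t₂ * k) t₁ t₂ (by positivity) (by positivity)
  have h3 : F S₁ S₂ (t₁ + t₂) 0 0 = A (t₁ + t₂) ((t₁ + t₂) * k) := by
    unfold F A
    rw [hU]
    rfl
  rw [← h3]
  unfold A
  linarith

end Pool.Agent.Lib.MP_fcaed2_pr
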