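import Mathlib
import Pool.Agent.Lib.MP_fcaed2_pr.Interp

open Finset

namespace Pool.Agent.Lib.MP_fcaed2_pr

lemma T_var {S : Finset ℕ} (hS : S.Nonempty) {g : Multiset (ℕ × ℕ) → ℝ} (hg : Lip g)
    (m : Multiset (ℕ × ℕ)) : T S (fun m => g m ^ 2) m ≤ T S g m ^ 2 + 4 := by
  set c := g m with hc
  have h1 : T S (fun m' => (g m' - c) ^ 2) m ≤ 4 := by
    have h4 : T S (fun _ => (4 : ℝ)) m = 4 := T_eq_const hS (fun _ _ => rfl)
    refine (T_mono_local fun u _ => ?_).trans h4.le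
    have := hg u m
    nlinarith
  have e : (fun m' => (g m' - c) ^ 2) =
      fun m' => 1 * (g m' ^ 2) + 1 * ((-2 * c) * g m' + c ^ 2) := by
    ext m'; ring
  rw [e, T_lin] at h1
  have e2 : (fun m' => (-2 * c) * g m' + c ^ 2) = fun m' => (-2 * c) * g m' + 1 * c ^ 2 := by
    ext m'; ring
  rw [e2, T_lin] at h1
  have h5 : T S (fun _ => c ^ 2) m = c ^ 2 := T_eq_const hS (fun _ _ => rfl)
  simp only [h5] at h1
  nlinarith [sq_nonneg (T S g m - c)]

lemma T_iter_var {S : Finset ℕ} (hS : S.Nonempty) (k : ℕ) (m : Multiset (ℕ × ℕ)) :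
    (T S)^[k] (fun m => HR m ^ 2) m ≤ ((T S)^[k] HR m) ^ 2 + 4 * k := by
  induction k generalizing m with
  | zero => simp
  | succ k ih =>
    rw [Function.iterate_succ_apply', Function.iterate_succ_apply']
    have h1 := T_mono (S := S) ih m
    have h2 := congrFun (T_add_const hS (fun m => ((T S)^[k] HR m) ^ 2) (4 * k)) m
    rw [h2] at h1
    have h3 := T_var hS (HR_lip.iter hS k) m
    push_cast
    linarith

end Pool.Agent.Lib.MP_fcaed2_pr
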