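import Mathlib
import Pool.Agent.Lib.MP_fcaed2_pr.Counting
import Pool.Agent.Lib.MP_fcaed2_pr.Variance

open Finset Filter Topology

namespace Pool.Agent.Lib.MP_fcaed2_pr

/-- proportion of injective labellings -/
noncomputable def ratio (t M : ℕ) : ℝ :=
  (Fintype.card (Fin t × Fin 2 ↪ Fin M) : ℝ) / ((M : ℝ) ^ 2) ^ t

lemma ratio_tendsto (t : ℕ) : Tendsto (fun M => ratio t M) atTop (𝓝 1) := by
  have hcard : ∀ M, Fintype.card (Fin t × Fin 2 ↪ Fin M) = M.descFactorial (2 * t) := by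
    intro M
    rw [Fintype.card_embedding_eq, Fintype.card_prod, Fintype.card_fin, Fintype.card_fin,
      Fintype.card_fin, mul_comm]
  have hlow : Tendsto (fun M : ℕ => (1 - (2 * t : ℝ) / M) ^ (2 * t)) atTop (𝓝 1) := by
    have h1 : Tendsto (fun M : ℕ => (2 * t : ℝ) / M) atTop (𝓝 0) :=
      tendsto_const_div_atTop_nhds_zero_nat _
    have h2 := (h1.const_sub 1).pow (2 * t)
    simpa using h2
  refine tendsto_of_tendsto_of_tendsto_of_le_of_le' hlow tendsto_const_nhds ?_ ?_
  · filter_upwards [eventually_ge_atTop (2 * t + 1)] with M hM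
    have hM0 : (0 : ℝ) < M := by
      have : 0 < M := by omega
      exact_mod_cast this
    unfold ratio
    rw [hcard, ← pow_mul, le_div_iff₀ (by positivity)]
    have h1 : (1 - (2 * t : ℝ) / M) ^ (2 * t) * (M : ℝ) ^ (2 * t) = ((M : ℝ) - 2 * t) ^ (2 * t) := by
      rw [← mul_pow]
      congr 1
      field_simp
    rw [h1]
    have h2 := Nat.pow_sub_le_descFactorial M (2 * t)
    have h3 : ((M : ℝ) - 2 * t) ≤ ((M + 1 - 2 * t : ℕ) : ℝ) := by
      have : M - 2 * t ≤ M + 1 - 2 * t := by omega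
      have h4 : ((M - 2 * t : ℕ) : ℝ) = (M : ℝ) - 2 * t := by
        rw [Nat.cast_sub (by omega)]; push_cast; ring
      rw [← h4]
      exact_mod_cast this
    have h5 : (0 : ℝ) ≤ (M : ℝ) - 2 * t := by
      have : (2 * t : ℝ) ≤ M := by
        have : 2 * t ≤ M := by omega
        exact_mod_cast this
      linarith
    calc ((M : ℝ) - 2 * t) ^ (2 * t) ≤ ((M + 1 - 2 * t : ℕ) : ℝ) ^ (2 * t) :=
          pow_le_pow_left₀ h5 h3 _
      _ ≤ (M.descFactorial (2 * t) : ℝ) := by exact_mod_cast h2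
  · filter_upwards [eventually_ge_atTop 1] with M hM
    have hM0 : (0 : ℝ) < M := by exact_mod_cast hM
    unfold ratio
    rw [hcard, ← pow_mul, div_le_one (by positivity)]
    exact_mod_cast Nat.descFactorial_le_pow M (2 * t)

lemma neckMean_abs_le {t : ℕ} {g : ℕ → ℝ} {B : ℝ} (hB : ∀ k ≤ 2 * t, |g k| ≤ B) :
    |neckMean t g| ≤ B := by
  unfold neckMean
  have hpos := necklaces_card_pos t
  rw [abs_div, abs_of_pos hpos, div_le_iff₀ hpos]
  refine (abs_sum_le_sum_abs _ _).trans ?_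
  have hconv : B * ((necklaces t).card : ℝ) = (necklaces t).card • B := by
    rw [nsmul_eq_mul]; ring
  rw [hconv]
  refine sum_le_card_nsmul _ _ _ fun a ha => ?_
  obtain ⟨e, he⟩ := exists_equiv ha
  have h1 : (fun k => (e.symm k).1) = a := funext he
  have h2 := H_eq_minCuts e
  rw [h1] at h2
  refine hB _ ?_
  rw [← h2]
  refine (H_le_card _).trans ?_
  have : Multiset.card (mset (fun x => (e x : ℕ))) = t := by
    unfold mset
    rw [Multiset.card_sum]
    simp
  rw [this]

lemma card_mset {t : ℕ} (Q : Fin t × Fin 2 → ℕ) : Multiset.card (mset Q) = t := by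
  unfold mset
  rw [Multiset.card_sum]
  simp

lemma avg_sub_le (t M : ℕ) (hM : 0 < M) {g : ℕ → ℝ} {B : ℝ} (hB : ∀ k ≤ 2 * t, |g k| ≤ B) :
    |avg t M g - neckMean t g| ≤ 2 * B * (1 - ratio t M) := by
  classical
  have hM0 : (0 : ℝ) < M := by exact_mod_cast hM
  have hMt : (0 : ℝ) < ((M : ℝ) ^ 2) ^ t := by positivity
  set G : (Fin t × Fin 2 → Fin M) → ℝ := fun Q => g (H (mset (fun x => (Q x : ℕ)))) with hG
  have hGB : ∀ Q, |G Q| ≤ B := by
    intro Q
    refine hB _ ?_
    have := H_le_card (mset (fun x => (Q x : ℕ)))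
    rwa [card_mset] at this
  have hsplit : ∑ Q, G Q = ∑ Q ∈ univ.filter (fun Q => Function.Injective Q), G Q +
      ∑ Q ∈ univ.filter (fun Q => ¬ Function.Injective Q), G Q :=
    (sum_filter_add_sum_filter_not _ _ _).symm
  have hinj : ∑ Q ∈ univ.filter (fun Q : Fin t × Fin 2 → Fin M => Function.Injective Q), G Q =
      ∑ Q : Fin t × Fin 2 ↪ Fin M, G Q := by
    rw [← sum_subtype_eq_sum_filter, ← Equiv.sum_comp
      (Equiv.subtypeInjectiveEquivEmbedding (Fin t × Fin 2) (Fin M))]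
    simp only [subtype_univ]
    rfl
  have hemb : ∑ Q : Fin t × Fin 2 ↪ Fin M, G Q =
      (Fintype.card (Fin t × Fin 2 ↪ Fin M)) * neckMean t g := sum_emb t M g
  have hcardinj : ((univ.filter (fun Q : Fin t × Fin 2 → Fin M => Function.Injective Q)).card : ℝ) =
      Fintype.card (Fin t × Fin 2 ↪ Fin M) := by
    rw [← Fintype.card_subtype, Fintype.card_congr
      (Equiv.subtypeInjectiveEquivEmbedding (Fin t × Fin 2) (Fin M))]
  have hcardall : ((univ.filter (fun Q : Fin t × Fin 2 → Fin M => Function.Injective Q)).card : ℝ) +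
      ((univ.filter (fun Q : Fin t × Fin 2 → Fin M => ¬ Function.Injective Q)).card : ℝ) =
      ((M : ℝ) ^ 2) ^ t := by
    rw [← Nat.cast_add, card_filter_add_card_filter_not, card_univ, Fintype.card_fun,
      Fintype.card_prod, Fintype.card_fin, Fintype.card_fin, Fintype.card_fin]
    push_cast
    rw [← pow_mul, mul_comm 2 t]
  have hrest : |∑ Q ∈ univ.filter (fun Q : Fin t × Fin 2 → Fin M => ¬ Function.Injective Q), G Q| ≤
      (((M : ℝ) ^ 2) ^ t - Fintype.card (Fin t × Fin 2 ↪ Fin M)) * B := by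
    refine (abs_sum_le_sum_abs _ _).trans ?_
    have h1 := sum_le_card_nsmul (univ.filter (fun Q : Fin t × Fin 2 → Fin M =>
      ¬ Function.Injective Q)) (fun Q => |G Q|) B (fun Q _ => hGB Q)
    refine h1.trans (le_of_eq ?_)
    rw [nsmul_eq_mul]
    congr 1
    linarith
  have havg : avg t M g - neckMean t g =
      (((M : ℝ) ^ 2) ^ t)⁻¹ * (∑ Q ∈ univ.filter (fun Q : Fin t × Fin 2 → Fin M =>
        ¬ Function.Injective Q), G Q) - (1 - ratio t M) * neckMean t g := by
    rw [avg_eq]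
    change (((M : ℝ) ^ 2) ^ t)⁻¹ * ∑ Q, G Q - _ = _
    rw [hsplit, hinj, hemb]
    unfold ratio
    field_simp
    ring
  have hr : ratio t M ≤ 1 := by
    unfold ratio
    rw [div_le_one hMt, ← hcardinj, ← hcardall]
    have : (0 : ℝ) ≤ ((univ.filter (fun Q : Fin t × Fin 2 → Fin M =>
      ¬ Function.Injective Q)).card : ℝ) := Nat.cast_nonneg _
    linarith
  rw [havg]
  refine (abs_sub _ _).trans ?_
  rw [abs_mul, abs_mul, abs_of_nonneg (inv_nonneg.2 hMt.le), abs_of_nonneg (sub_nonneg.2 hr)]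
  have h1 : (((M : ℝ) ^ 2) ^ t)⁻¹ * |∑ Q ∈ univ.filter (fun Q : Fin t × Fin 2 → Fin M =>
        ¬ Function.Injective Q), G Q| ≤ (1 - ratio t M) * B := by
    refine (mul_le_mul_of_nonneg_left hrest (inv_nonneg.2 hMt.le)).trans (le_of_eq ?_)
    unfold ratio
    field_simp
  have h2 : (1 - ratio t M) * |neckMean t g| ≤ (1 - ratio t M) * B :=
    mul_le_mul_of_nonneg_left (neckMean_abs_le hB) (sub_nonneg.2 hr)
  linarith

lemma avg_tendsto (t : ℕ) (g : ℕ → ℝ) : Tendsto (fun M => avg t M g) atTop (𝓝 (neckMean t g)) := by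
  set B : ℝ := ∑ k ∈ range (2 * t + 1), |g k| with hBdef
  have hB : ∀ k ≤ 2 * t, |g k| ≤ B := fun k hk =>
    single_le_sum (f := fun k => |g k|) (fun _ _ => abs_nonneg _) (mem_range.2 (by omega))
  rw [tendsto_iff_norm_sub_tendsto_zero]
  have h1 : Tendsto (fun M => 2 * B * (1 - ratio t M)) atTop (𝓝 0) := by
    have := ((ratio_tendsto t).const_sub 1).const_mul (2 * B)
    simpa using this
  refine squeeze_zero' (Eventually.of_forall fun _ => norm_nonneg _) ?_ h1
  filter_upwards [eventually_gt_atTop 0] with M hM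
  rw [Real.norm_eq_abs]
  exact avg_sub_le t M hM hB

/-- mean number of cuts -/
noncomputable def mc (t : ℕ) : ℝ := neckMean t (fun k => (k : ℝ))

lemma A_tendsto {t : ℕ} : Tendsto (fun M => A t M) atTop (𝓝 (mc t)) :=
  avg_tendsto t (fun k => (k : ℝ))

lemma mc_nonneg (t : ℕ) : 0 ≤ mc t := by
  unfold mc neckMean
  positivity

lemma mc_subadd {t₁ t₂ : ℕ} (h1 : 0 < t₁) (h2 : 0 < t₂) :
    mc (t₁ + t₂) ≤ mc t₁ + mc t₂ + 2 * Real.sqrt ((t₁ : ℝ) * t₂ / (t₁ + t₂)) := by
  have k1 : Tendsto (fun k : ℕ => A (t₁ + t₂) ((t₁ + t₂) * (k + 1))) atTop (𝓝 (mc (t₁ + t₂))) :=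
    A_tendsto.comp (tendsto_atTop_mono (fun k => by simp only [id]; nlinarith) tendsto_id)
  have k2 : Tendsto (fun k : ℕ => A t₁ (t₁ * (k + 1))) atTop (𝓝 (mc t₁)) :=
    A_tendsto.comp (tendsto_atTop_mono (fun k => by simp only [id]; nlinarith) tendsto_id)
  have k3 : Tendsto (fun k : ℕ => A t₂ (t₂ * (k + 1))) atTop (𝓝 (mc t₂)) :=
    A_tendsto.comp (tendsto_atTop_mono (fun k => by simp only [id]; nlinarith) tendsto_id)
  exact le_of_tendsto_of_tendsto' k1 ((k2.add k3).add_const _)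
    fun k => A_subadd h1 h2 (Nat.succ_pos k)

/-- corrected mean -/
noncomputable def bb (t : ℕ) : ℝ := mc t + 3 * Real.sqrt t

lemma bb_subadd : Subadditive bb := by
  intro m n
  rcases Nat.eq_zero_or_pos m with rfl | hm
  · have h0 : 0 ≤ bb 0 := by
      unfold bb
      have := mc_nonneg 0
      positivity
    rw [zero_add]
    linarith
  rcases Nat.eq_zero_or_pos n with rfl | hn
  · have h0 : 0 ≤ bb 0 := by
      unfold bb
      have := mc_nonneg 0
      positivity
    rw [add_zero]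
    linarith
  have h := mc_subadd hm hn
  have hm' : (0 : ℝ) < m := by exact_mod_cast hm
  have hn' : (0 : ℝ) < n := by exact_mod_cast hn
  unfold bb
  set s := Real.sqrt m with hs
  set r := Real.sqrt n with hr
  have hs0 : 0 < s := Real.sqrt_pos.2 hm'
  have hr0 : 0 < r := Real.sqrt_pos.2 hn'
  have hs2 : s ^ 2 = m := Real.sq_sqrt hm'.le
  have hr2 : r ^ 2 = n := Real.sq_sqrt hn'.le
  have hcast : (((m + n : ℕ)) : ℝ) = m + n := by push_cast; ring
  rw [hcast]
  set h' := Real.sqrt ((m : ℝ) + n) with hh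
  have hh0 : 0 < h' := Real.sqrt_pos.2 (by positivity)
  have hh2 : h' ^ 2 = s ^ 2 + r ^ 2 := by rw [hs2, hr2]; exact Real.sq_sqrt (by positivity)
  have hsq : Real.sqrt ((m : ℝ) * n / (m + n)) = s * r / h' := by
    rw [Real.sqrt_div' _ (by positivity), Real.sqrt_mul hm'.le]
  rw [hsq] at h
  have hsh : s ≤ h' := by
    apply Real.sqrt_le_sqrt
    linarith
  have hrh : r ≤ h' := by
    apply Real.sqrt_le_sqrt
    linarith
  have key : 2 * (s * r / h') ≤ 3 * (s + r - h') := by
    have e : 2 * (s * r / h') = 2 * (s * r) / h' := by ring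
    rw [e, div_le_iff₀ hh0]
    have h3 : (s + r - h') * (s + r + h') = 2 * (s * r) := by nlinarith
    have h4 : s + r + h' ≤ 3 * h' := by linarith
    have h5 : 0 ≤ s + r - h' := by nlinarith
    nlinarith [mul_le_mul_of_nonneg_left h4 h5]
  linarith

lemma exists_limit : ∃ c : ℝ, Tendsto (fun t : ℕ => mc t / t) atTop (𝓝 c) := by
  have hbdd : BddBelow (Set.range fun n : ℕ => bb n / n) := by
    refine ⟨0, ?_⟩
    rintro _ ⟨n, rfl⟩
    unfold bb
    have := mc_nonneg n
    positivity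
  have h1 := bb_subadd.tendsto_lim hbdd
  refine ⟨bb_subadd.lim, ?_⟩
  have h2 : Tendsto (fun t : ℕ => 3 * (Real.sqrt t / t)) atTop (𝓝 0) := by
    have h3 : Tendsto (fun t : ℕ => (Real.sqrt t)⁻¹) atTop (𝓝 0) :=
      (Real.tendsto_sqrt_atTop.comp tendsto_natCast_atTop_atTop).inv_tendsto_atTop
    have h4 : ∀ t : ℕ, Real.sqrt t / t = (Real.sqrt t)⁻¹ := by
      intro t
      rw [Real.sqrt_div_self']
      exact one_div _
    simp only [h4]
    simpa using h3.const_mul 3
  have h5 := h1.sub h2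
  rw [sub_zero] at h5
  refine h5.congr fun t => ?_
  unfold bb
  ring

lemma neck_var (t : ℕ) : neckMean t (fun k => (k : ℝ) ^ 2) ≤ mc t ^ 2 + 4 * t := by
  have h1 := avg_tendsto t (fun k => (k : ℝ) ^ 2)
  have h2 : Tendsto (fun M => A t M ^ 2 + 4 * (t : ℝ)) atTop (𝓝 (mc t ^ 2 + 4 * t)) :=
    (A_tendsto.pow 2).add_const _
  refine le_of_tendsto_of_tendsto h1 h2 ?_
  filter_upwards [eventually_gt_atTop 0] with M hM
  exact T_iter_var (S := range M) ⟨0, mem_range.2 hM⟩ t 0

lemma chebyshev (t : ℕ) {δ : ℝ} (hδ : 0 < δ) :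
    1 - prob t (fun a => |(minCuts a : ℝ) - mc t| < δ) ≤ 4 * t / δ ^ 2 := by
  classical
  have hpos := necklaces_card_pos t
  have h1 : ∑ a ∈ necklaces t, ((minCuts a : ℝ) - mc t) ^ 2 ≤ (necklaces t).card * (4 * t) := by
    have e : ∑ a ∈ necklaces t, ((minCuts a : ℝ) - mc t) ^ 2 =
        (necklaces t).card * (neckMean t (fun k => (k : ℝ) ^ 2) - mc t ^ 2) := by
      have e1 : ∑ a ∈ necklaces t, (minCuts a : ℝ) ^ 2 =
          (necklaces t).card * neckMean t (fun k => (k : ℝ) ^ 2) := by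
        unfold neckMean
        field_simp
      have e2 : ∑ a ∈ necklaces t, (minCuts a : ℝ) = (necklaces t).card * mc t := by
        unfold mc neckMean
        field_simp
      have e3 : ∀ a ∈ necklaces t, ((minCuts a : ℝ) - mc t) ^ 2 =
          (minCuts a : ℝ) ^ 2 - 2 * mc t * (minCuts a : ℝ) + mc t ^ 2 := fun a _ => by ring
      rw [sum_congr rfl e3, sum_add_distrib, sum_sub_distrib, ← mul_sum, e1, e2, sum_const,
        nsmul_eq_mul]
      ring
    rw [e]
    exact mul_le_mul_of_nonneg_left (by linarith [neck_var t]) hpos.le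
  have h2 : (((necklaces t).filter (fun a => ¬ |(minCuts a : ℝ) - mc t| < δ)).card : ℝ) * δ ^ 2 ≤
      ∑ a ∈ necklaces t, ((minCuts a : ℝ) - mc t) ^ 2 := by
    rw [← nsmul_eq_mul]
    refine le_trans (card_nsmul_le_sum _ (fun a => ((minCuts a : ℝ) - mc t) ^ 2) _ ?_)
      (sum_le_sum_of_subset_of_nonneg (filter_subset _ _) fun _ _ _ => sq_nonneg _)
    intro a ha
    rw [mem_filter] at ha
    have h3 := not_lt.1 ha.2
    rw [← sq_abs ((minCuts a : ℝ) - mc t)]
    exact pow_le_pow_left₀ hδ.le h3 2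
  have h3 : (((necklaces t).filter (fun a => |(minCuts a : ℝ) - mc t| < δ)).card : ℝ) +
      (((necklaces t).filter (fun a => ¬ |(minCuts a : ℝ) - mc t| < δ)).card : ℝ) =
      (necklaces t).card := by
    rw [← Nat.cast_add, card_filter_add_card_filter_not]
  have h4 : 1 - prob t (fun a => |(minCuts a : ℝ) - mc t| < δ) =
      (((necklaces t).filter (fun a => ¬ |(minCuts a : ℝ) - mc t| < δ)).card : ℝ) /
        (necklaces t).card := by
    unfold prob
    rw [← h3]
    have hp : 0 < (((necklaces t).filter (fun a => |(minCuts a : ℝ) - mc t| < δ)).card : ℝ) +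
      (((necklaces t).filter (fun a => ¬ |(minCuts a : ℝ) - mc t| < δ)).card : ℝ) := by
      rw [h3]; exact hpos
    field_simp
    ring
  rw [h4, div_le_div_iff₀ hpos (by positivity)]
  linarith

lemma prob_mono {t : ℕ} {p q : (Fin (2 * t) → Fin t) → Prop} (h : ∀ a, p a → q a) :
    prob t p ≤ prob t q := by
  classical
  unfold prob
  refine div_le_div_of_nonneg_right ?_ (Nat.cast_nonneg _)
  exact_mod_cast card_le_card (monotone_filter_right _ fun a _ => h a)

lemma prob_le_one (t : ℕ) (p : (Fin (2 * t) → Fin t) → Prop) : prob t p ≤ 1 := by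
  classical
  unfold prob
  rw [div_le_one (necklaces_card_pos t)]
  exact_mod_cast card_filter_le _ _

theorem main : ∃ c : ℝ, ∀ ε : ℝ, 0 < ε →
    Tendsto (fun t : ℕ => prob t (fun a => |(minCuts a : ℝ) / t - c| < ε)) atTop (𝓝 1) := by
  obtain ⟨c, hc⟩ := exists_limit
  refine ⟨c, fun ε hε => ?_⟩
  have h1 : Tendsto (fun t : ℕ => 1 - 16 / (ε ^ 2 * t)) atTop (𝓝 1) := by
    have h2 : Tendsto (fun t : ℕ => (16 / ε ^ 2) / (t : ℝ)) atTop (𝓝 0) :=
      tendsto_const_div_atTop_nhds_zero_nat _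
    have h3 := h2.const_sub 1
    rw [sub_zero] at h3
    refine h3.congr fun t => ?_
    rw [div_div]
  refine tendsto_of_tendsto_of_tendsto_of_le_of_le' h1 tendsto_const_nhds ?_
    (Eventually.of_forall fun t => prob_le_one t _)
  have h4 : ∀ᶠ t : ℕ in atTop, |mc t / t - c| < ε / 2 := by
    have := (Metric.tendsto_nhds.1 hc) (ε / 2) (by positivity)
    simpa [Real.dist_eq] using this
  filter_upwards [h4, eventually_gt_atTop 0] with t ht ht0
  have ht' : (0 : ℝ) < t := by exact_mod_cast ht0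
  have hch := chebyshev t (δ := ε / 2 * t) (by positivity)
  have e : 4 * (t : ℝ) / (ε / 2 * t) ^ 2 = 16 / (ε ^ 2 * t) := by
    field_simp
    ring
  rw [e] at hch
  have hmono : prob t (fun a => |(minCuts a : ℝ) - mc t| < ε / 2 * t) ≤
      prob t (fun a => |(minCuts a : ℝ) / t - c| < ε) := by
    refine prob_mono fun a ha => ?_
    have h5 : |(minCuts a : ℝ) / t - mc t / t| < ε / 2 := by
      rw [← sub_div, abs_div, abs_of_pos ht', div_lt_iff₀ ht']
      exact ha
    calc |(minCuts a : ℝ) / t - c| = |((minCuts a : ℝ) / t - mc t / t) + (mc t / t - c)| := by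
          congr 1; ring
      _ ≤ |(minCuts a : ℝ) / t - mc t / t| + |mc t / t - c| := abs_add_le _ _
      _ < ε / 2 + ε / 2 := add_lt_add h5 ht
      _ = ε := by ring
  linarith

end Pool.Agent.Lib.MP_fcaed2_pr
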